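import Mathlib

/-!
# Separable ordered Banach spaces with suprema of increasing sequences

In a separable ordered Banach space (closed cone, not assumed normal) in which every order bounded
increasing sequence has a supremum, every order bounded increasing sequence converges in norm.

If not, there are `z k ≥ 0` with `‖z k‖ ≥ ε` and partial sums bounded above. Each subset `A` of `ℕ`
(a point of the compact group `ℕ → ZMod 2`) gives the supremum `m A` of the subsums over `A`. Since
`m A + m Aᶜ` does not depend on `A`, the graph of `m` is closed, so `m` is Borel by the theorem of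
Lusin and Souslin. The preimage of some ball of radius `ε / 4` has positive Haar measure, and
by the theorem of Steinhaus it contains two points that differ exactly at `k`, for all large `k`.
Then `‖z k‖ < ε`, a contradiction.
-/

set_option autoImplicit false

namespace Pool.Agent.Results.MP_06b617_an.Converges

open Filter Topology Set MeasureTheory

variable {X : Type*} [NormedAddCommGroup X] [NormedSpace ℝ X] [CompleteSpace X]
  [PartialOrder X] [IsOrderedAddMonoid X]

/-- Subsums. -/
def sub (z : ℕ → X) (a : ℕ → ZMod 2) (N : ℕ) : X :=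
  ∑ k ∈ Finset.range N, if a k = 0 then 0 else z k

omit [NormedSpace ℝ X] [CompleteSpace X] in
theorem sub_mono {z : ℕ → X} (hz : ∀ k, 0 ≤ z k) (a : ℕ → ZMod 2) : Monotone (sub z a) := by
  refine monotone_nat_of_le_succ fun n => ?_
  rw [sub, sub, Finset.sum_range_succ]
  refine le_add_of_nonneg_right ?_
  split_ifs
  · exact le_rfl
  · exact hz _

omit [NormedSpace ℝ X] [CompleteSpace X] [PartialOrder X] [IsOrderedAddMonoid X] in
theorem sub_add_compl (z : ℕ → X) (a : ℕ → ZMod 2) (N : ℕ) :
    sub z a N + sub z (a + 1) N = ∑ k ∈ Finset.range N, z k := by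
  rw [sub, sub, ← Finset.sum_add_distrib]
  refine Finset.sum_congr rfl fun k _ => ?_
  have h : ∀ b : ZMod 2, (if b = 0 then (0 : X) else z k) + (if b + 1 = 0 then (0 : X) else z k) =
      z k := by
    intro b
    have : b = 0 ∨ b = 1 := by
      revert b; decide
    rcases this with rfl | rfl
    · simp
    · have : (1 : ZMod 2) + 1 = 0 := by decide
      simp [this]
  exact h (a k)

omit [NormedSpace ℝ X] [CompleteSpace X] [PartialOrder X] [IsOrderedAddMonoid X] in
theorem continuous_sub (z : ℕ → X) (N : ℕ) : Continuous fun a : ℕ → ZMod 2 => sub z a N := by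
  refine continuous_finsetSum _ fun k _ => ?_
  exact (continuous_of_discreteTopology
    (f := fun b : ZMod 2 => if b = 0 then (0 : X) else z k)).comp (continuous_apply k)

/-- In a separable ordered Banach space with suprema of order bounded increasing sequences, such
sequences converge in norm. -/
theorem result {X : Type*} [NormedAddCommGroup X] [NormedSpace ℝ X] [CompleteSpace X]
    [TopologicalSpace.SeparableSpace X] [PartialOrder X] [IsOrderedAddMonoid X] [PosSMulMono ℝ X]
    (hclosed : IsClosed {x : X | 0 ≤ x})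
    (hS : ∀ x : ℕ → X, Monotone x → BddAbove (range x) → ∃ s, IsLUB (range x) s)
    (x : ℕ → X) (hx : Monotone x) (hb : BddAbove (range x)) :
    ∃ l, Tendsto x atTop (𝓝 l) := by
  have hord : OrderClosedTopology X := by
    refine ⟨?_⟩
    have : {p : X × X | p.1 ≤ p.2} = (fun p : X × X => p.2 - p.1) ⁻¹' {x : X | 0 ≤ x} := by
      ext p; simp
    rw [this]
    exact hclosed.preimage (by fun_prop)
  by_contra hcon
  have hnc : ¬ CauchySeq x := fun h => hcon (cauchySeq_tendsto_of_complete h)
  rw [Metric.cauchySeq_iff'] at hnc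
  push Not at hnc
  obtain ⟨ε, hε, hφ⟩ := hnc
  choose φ hφ1 hφ2 using hφ
  obtain ⟨v, hv⟩ := hb
  have hv' : ∀ n, x n ≤ v := fun n => hv ⟨n, rfl⟩
  let n : ℕ → ℕ := fun k => φ^[k] 0
  have hn : ∀ k, n (k + 1) = φ (n k) := fun k => Function.iterate_succ_apply' φ k 0
  let z : ℕ → X := fun k => x (n (k + 1)) - x (n k)
  have hz0 : ∀ k, 0 ≤ z k := fun k => by
    simp only [z, sub_nonneg]
    rw [hn]
    exact hx (hφ1 _)
  have hzε : ∀ k, ε ≤ ‖z k‖ := fun k => by
    have := hφ2 (n k)
    rw [dist_eq_norm] at this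
    simp only [z]
    rw [hn]
    exact this
  have hzsum : ∀ N, ∑ k ∈ Finset.range N, z k ≤ v - x 0 := fun N => by
    simp only [z]
    rw [Finset.sum_range_sub (fun k => x (n k))]
    have h0 : n 0 = 0 := rfl
    rw [h0]
    gcongr
    exact hv' _
  have hsub : ∀ a N, sub z a N ≤ v - x 0 := fun a N => by
    refine le_trans ?_ (hzsum N)
    rw [← sub_add_compl z a N]
    refine le_add_of_nonneg_right ?_
    have := sub_mono hz0 (a + 1) (Nat.zero_le N)
    simpa [sub] using this
  have hex : ∀ a, ∃ s, IsLUB (range (sub z a)) s := fun a =>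
    hS _ (sub_mono hz0 a) ⟨v - x 0, by rintro _ ⟨N, rfl⟩; exact hsub a N⟩
  choose m hm using hex
  have hmle : ∀ a N, sub z a N ≤ m a := fun a N => (hm a).1 ⟨N, rfl⟩
  obtain ⟨w, hw⟩ := hS (fun N => ∑ k ∈ Finset.range N, z k) (by
    refine monotone_nat_of_le_succ fun n => ?_
    rw [Finset.sum_range_succ]
    exact le_add_of_nonneg_right (hz0 n)) ⟨v - x 0, by rintro _ ⟨N, rfl⟩; exact hzsum N⟩
  have hmm : ∀ a, m a + m (a + 1) = w := by
    intro a
    refine le_antisymm ?_ ?_
    · rw [← le_sub_iff_add_le]
      refine (hm a).2 ?_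
      rintro _ ⟨N, rfl⟩
      rw [le_sub_comm]
      refine (hm (a + 1)).2 ?_
      rintro _ ⟨M, rfl⟩
      rw [le_sub_iff_add_le, add_comm]
      calc sub z a N + sub z (a + 1) M ≤ sub z a (max N M) + sub z (a + 1) (max N M) :=
            add_le_add (sub_mono hz0 a (le_max_left _ _)) (sub_mono hz0 (a + 1) (le_max_right _ _))
        _ = ∑ k ∈ Finset.range (max N M), z k := sub_add_compl z a _
        _ ≤ w := hw.1 ⟨_, rfl⟩
    · refine hw.2 ?_
      rintro _ ⟨N, rfl⟩
      simp only
      rw [← sub_add_compl z a N]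
      exact add_le_add (hmle a N) (hmle (a + 1) N)
  have hchar : ∀ a t, m a = t ↔ ∀ N, sub z a N ≤ t ∧ sub z (a + 1) N ≤ w - t := by
    intro a t
    constructor
    · rintro rfl N
      refine ⟨hmle a N, ?_⟩
      rw [← hmm a, add_sub_cancel_left]
      exact hmle (a + 1) N
    · intro h
      refine le_antisymm ((hm a).2 ?_) ?_
      · rintro _ ⟨N, rfl⟩
        exact (h N).1
      · have h1 : m (a + 1) ≤ w - t := (hm (a + 1)).2 (by rintro _ ⟨N, rfl⟩; exact (h N).2)
        rw [le_sub_comm] at h1
        refine h1.trans (le_of_eq ?_)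
        rw [← hmm a, add_sub_cancel_right]
  have hgraph : IsClosed {p : (ℕ → ZMod 2) × X | m p.1 = p.2} := by
    have : {p : (ℕ → ZMod 2) × X | m p.1 = p.2} =
        ⋂ N, {p : (ℕ → ZMod 2) × X | sub z p.1 N ≤ p.2} ∩
          {p : (ℕ → ZMod 2) × X | sub z (p.1 + 1) N ≤ w - p.2} := by
      ext p
      simp [hchar]
    rw [this]
    refine isClosed_iInter fun N => IsClosed.inter ?_ ?_
    · exact isClosed_le ((continuous_sub z N).comp continuous_fst) continuous_snd
    · exact isClosed_le ((continuous_sub z N).comp ((continuous_add_const (1 : ℕ → ZMod 2)).comp continuous_fst))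
        (continuous_const.sub continuous_snd)
  let _ : MeasurableSpace (ℕ → ZMod 2) := borel _
  have : BorelSpace (ℕ → ZMod 2) := ⟨rfl⟩
  let _ : MeasurableSpace X := borel X
  have : BorelSpace X := ⟨rfl⟩
  have : SecondCountableTopology X := UniformSpace.secondCountable_of_separable X
  have hmeas : ∀ c : X, MeasurableSet {a : ℕ → ZMod 2 | ‖m a - c‖ < ε / 2} := by
    intro c
    have h1 : {a : ℕ → ZMod 2 | ‖m a - c‖ < ε / 2} =
        Prod.fst '' ({p : (ℕ → ZMod 2) × X | m p.1 = p.2} ∩
          {p : (ℕ → ZMod 2) × X | ‖p.2 - c‖ < ε / 2}) := by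
      ext a
      constructor
      · intro h
        exact ⟨(a, m a), ⟨rfl, h⟩, rfl⟩
      · rintro ⟨⟨b, t⟩, ⟨h1, h2⟩, rfl⟩
        simp only [mem_ofPred_eq] at h1 h2 ⊢
        rw [h1]
        exact h2
    rw [h1]
    refine MeasurableSet.image_of_measurable_injOn ?_ measurable_fst ?_
    · refine hgraph.measurableSet.inter ?_
      exact (isOpen_lt (by fun_prop) continuous_const).measurableSet
    · rintro ⟨a, s⟩ ⟨h1, -⟩ ⟨b, t⟩ ⟨h2, -⟩ h
      simp only [mem_ofPred_eq] at h1 h2 h
      subst h
      rw [← h1, ← h2]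
  obtain ⟨q, hq⟩ := TopologicalSpace.exists_dense_seq X
  let μ : Measure (ℕ → ZMod 2) := Measure.addHaar
  have hcover : (⋃ j, {a : ℕ → ZMod 2 | ‖m a - q j‖ < ε / 2}) = univ := by
    rw [eq_univ_iff_forall]
    intro a
    obtain ⟨j, hj⟩ := hq.exists_dist_lt (m a) (half_pos hε)
    rw [mem_iUnion]
    refine ⟨j, ?_⟩
    rw [dist_eq_norm] at hj
    exact hj
  obtain ⟨j, hj⟩ : ∃ j, 0 < μ {a : ℕ → ZMod 2 | ‖m a - q j‖ < ε / 2} := by
    by_contra hno
    push Not at hno
    have h1 : μ (⋃ j, {a : ℕ → ZMod 2 | ‖m a - q j‖ < ε / 2}) = 0 :=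
      measure_iUnion_null fun j => le_antisymm (hno j) bot_le
    rw [hcover] at h1
    have h2 := isOpen_univ.measure_pos μ (univ_nonempty (α := ℕ → ZMod 2))
    exact absurd h1 h2.ne'
  have hst := Measure.sub_mem_nhds_zero_of_addHaar_pos μ _ (hmeas (q j)) hj
  have hsingle : Tendsto (fun k : ℕ => (Pi.single k 1 : ℕ → ZMod 2)) atTop (𝓝 0) := by
    rw [tendsto_pi_nhds]
    intro i
    refine tendsto_const_nhds.congr' ?_
    filter_upwards [eventually_gt_atTop i] with k hk
    simp [hk.ne]
  obtain ⟨k, hk⟩ := (hsingle.eventually hst).exists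
  obtain ⟨a, ha, b, hb, hab⟩ := hk
  have hab' : a = b + Pi.single k 1 := by
    rw [← hab]; simp
  have hadd : ∀ (b : ℕ → ZMod 2), b k = 0 → m (b + Pi.single k 1) = m b + z k := by
    intro b hbk
    have h1 : ∀ N, sub z (b + Pi.single k 1) N = sub z b N + if k < N then z k else 0 := by
      intro N
      have h2 : (if k < N then z k else 0) = ∑ i ∈ Finset.range N, if i = k then z k else 0 := by
        rw [Finset.sum_ite_eq']
        simp
      rw [h2, sub, sub, ← Finset.sum_add_distrib]
      refine Finset.sum_congr rfl fun i _ => ?_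
      by_cases hik : i = k
      · subst hik
        simp [hbk]
      · simp [hik]
    refine le_antisymm ((hm _).2 ?_) ?_
    · rintro _ ⟨N, rfl⟩
      rw [h1]
      refine add_le_add (hmle b N) ?_
      split_ifs
      · exact le_rfl
      · exact hz0 k
    · rw [← le_sub_iff_add_le]
      refine (hm b).2 ?_
      rintro _ ⟨N, rfl⟩
      rw [le_sub_iff_add_le]
      have h3 := hmle (b + Pi.single k 1) (max N (k + 1))
      rw [h1, if_pos (lt_of_lt_of_le (Nat.lt_succ_self k) (le_max_right _ _))] at h3
      refine le_trans ?_ h3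
      gcongr
      exact sub_mono hz0 b (le_max_left _ _)
  have hdiff : ‖m a - m b‖ < ε := by
    have h1 : m a - m b = (m a - q j) - (m b - q j) := by abel
    rw [h1]
    have ha' : ‖m a - q j‖ < ε / 2 := ha
    have hb' : ‖m b - q j‖ < ε / 2 := hb
    calc ‖(m a - q j) - (m b - q j)‖ ≤ ‖m a - q j‖ + ‖m b - q j‖ := norm_sub_le _ _
      _ < ε / 2 + ε / 2 := add_lt_add ha' hb'
      _ = ε := by ring
  have h2 : b k = 0 ∨ b k = 1 := by
    have : ∀ c : ZMod 2, c = 0 ∨ c = 1 := by decide
    exact this _
  have h3 : ‖z k‖ < ε := by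
    rcases h2 with h | h
    · rw [hab', hadd b h, add_sub_cancel_left] at hdiff
      exact hdiff
    · have hak : a k = 0 := by
        rw [hab']
        simp only [Pi.add_apply, Pi.single_eq_same, h]
        decide
      have hba : b = a + Pi.single k 1 := by
        rw [hab', add_assoc, ← Pi.single_add]
        have : (1 : ZMod 2) + 1 = 0 := by decide
        rw [this]
        simp
      have h4 : m b = m a + z k := by
        rw [hba]
        exact hadd a hak
      rw [h4, sub_add_cancel_left, norm_neg] at hdiff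
      exact hdiff
  exact absurd (hzε k) (not_le.2 h3)

end Pool.Agent.Results.MP_06b617_an.Converges
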